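import Pool.Agent.Helper99.WP.GoalsK

/-!
# WP, packet D3: the trace bound in dimension at least three
-/

open Finset

namespace Pool.Agent.Helper59.WP

open Pool.Agent.Helper99.WP Pool.Agent.Helper99.ERW

theorem D3 (hGCM : GCM_stmt) (hQQQ : QQQ_stmt) (hEXT : EXT_stmt) (hSCU : SCU_stmt) :
    D3_stmt := by
  intro d hd κ hκ
  obtain ⟨C0, hC0, hS⟩ := hSCU d κ hκ 3 le_rfl
  obtain ⟨-, hcard, -, hsymm, hincl, hmon⟩ := hQQQ d
  refine ⟨4 * d + 2 * C0 * 7 ^ d, by positivity, ?_⟩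
  intro p hp R
  -- monotonicity in the domain
  have hgm : ∀ (D D' : Finset (Site d)) (x : Site d), D ⊆ D' → gg p D x x ≤ gg p D' x x := by
    intro D D' x hDD
    obtain ⟨-, -, -, -, -, h6, -⟩ := hGCM d κ p hκ hp D
    exact h6 D' hDD (ind {x}) (fun y _ => by unfold ind; split_ifs <;> norm_num) x
  have hg1 : ∀ x : Site d, gg p (Q 1 x) x x ≤ 4 * d := by
    intro x
    obtain ⟨-, -, h3, -, -, -, -⟩ := hGCM d κ p hκ hp (Q 1 x)
    have h := h3 (ind {x}) (fun _ => 1) (fun y _ => by unfold ind; split_ifs <;> norm_num) x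
    have h' := (hEXT d κ p hκ hp 1 x).1 (Q 1 x) (Subset.refl _) x
    unfold gg
    refine h.trans (h'.trans (le_of_eq ?_))
    push_cast
    ring
  have hex : ∃ m : ℕ, 2 * R ≤ 3 ^ m := by
    refine ⟨2 * R, ?_⟩
    exact (Nat.lt_pow_self (by norm_num)).le
  classical
  set m := Nat.find hex with hm
  have hm1 : 2 * R ≤ 3 ^ m := Nat.find_spec hex
  have hm2 : ∀ k < m, 3 ^ k < 2 * R := fun k hk => not_le.1 (Nat.find_min hex hk)
  have htel : ∀ x ∈ Q R (0 : Site d), gg p (Q R 0) x x ≤ 4 * d +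
      ∑ k ∈ range m, (gg p (Q (3 * 3 ^ k) x) x x - gg p (Q (3 ^ k) x) x x) := by
    intro x hx
    have h1 : Q R (0 : Site d) ⊆ Q (3 ^ m) x :=
      (hincl R R 0 x ((hsymm R 0 x).1 hx)).trans (hmon _ _ x (by omega))
    have h2 := hgm _ _ x h1
    have h3 : ∑ k ∈ range m, (gg p (Q (3 * 3 ^ k) x) x x - gg p (Q (3 ^ k) x) x x) =
        gg p (Q (3 ^ m) x) x x - gg p (Q 1 x) x x := by
      have h := Finset.sum_range_sub (fun k => gg p (Q (3 ^ k) x) x x) m
      simp only [pow_zero] at h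
      rw [← h]
      refine sum_congr rfl fun k _ => ?_
      rw [pow_succ, mul_comm]
    have h4 := hg1 x
    rw [h3]
    linarith
  have hc : ((Q R (0 : Site d)).card : ℝ) = (2 * R + 1 : ℝ) ^ d := by
    rw [hcard]; push_cast; ring
  have hstep : ∀ k < m, ∑ x ∈ Q R (0 : Site d),
      (gg p (Q (3 * 3 ^ k) x) x x - gg p (Q (3 ^ k) x) x x) ≤
      C0 * 7 ^ d * (Q R (0 : Site d)).card * (1 / 3 : ℝ) ^ k := by
    intro k hk
    have h := hS p hp R (3 ^ k) (Nat.one_le_pow _ _ (by norm_num))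
    refine h.trans ?_
    have h1 : ((Q (R + 3 * 3 ^ k) (0 : Site d)).card : ℝ) ≤
        7 ^ d * (Q R (0 : Site d)).card := by
      rw [hc, hcard, ← mul_pow]
      have h2 : 2 * (R + 3 * 3 ^ k) + 1 ≤ 7 * (2 * R + 1) := by
        have := hm2 k hk
        omega
      push_cast
      refine pow_le_pow_left₀ (by positivity) ?_ d
      exact_mod_cast h2
    have h3 : (((3 ^ k : ℕ) : ℝ)) ^ 2 / (((3 ^ k : ℕ) : ℝ)) ^ d ≤ (1 / 3 : ℝ) ^ k := by
      obtain ⟨e, rfl⟩ := Nat.exists_eq_add_of_le hd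
      have h4 : (1 : ℝ) ≤ (3 : ℝ) ^ k := one_le_pow₀ (by norm_num)
      have h5 : (0 : ℝ) < (3 : ℝ) ^ k := by positivity
      push_cast
      rw [div_le_iff₀ (by positivity), one_div, inv_pow, ← div_eq_inv_mul, le_div_iff₀ h5]
      have h6 : ((3 : ℝ) ^ k) ^ 2 * 3 ^ k = ((3 : ℝ) ^ k) ^ 3 := by ring
      rw [h6]
      exact pow_le_pow_right₀ h4 (by omega)
    have h7 : C0 * (((3 ^ k : ℕ) : ℝ)) ^ 2 / (((3 ^ k : ℕ) : ℝ)) ^ d ≤ C0 * (1 / 3 : ℝ) ^ k := by
      rw [mul_div_assoc]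
      exact mul_le_mul_of_nonneg_left h3 hC0
    calc _ ≤ C0 * (1 / 3 : ℝ) ^ k * (7 ^ d * (Q R (0 : Site d)).card) :=
          mul_le_mul h7 h1 (by positivity) (by positivity)
      _ = _ := by ring
  have hgeo : ∑ k ∈ range m, (1 / 3 : ℝ) ^ k ≤ 2 := by
    rw [geom_sum_eq (by norm_num)]
    have : (0 : ℝ) ≤ (1 / 3 : ℝ) ^ m := by positivity
    rw [div_le_iff_of_neg (by norm_num)]
    linarith
  calc ∑ x ∈ Q R (0 : Site d), gg p (Q R 0) x x
      ≤ ∑ x ∈ Q R (0 : Site d), (4 * d +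
        ∑ k ∈ range m, (gg p (Q (3 * 3 ^ k) x) x x - gg p (Q (3 ^ k) x) x x)) :=
        sum_le_sum htel
    _ = 4 * d * (Q R (0 : Site d)).card + ∑ k ∈ range m, ∑ x ∈ Q R (0 : Site d),
        (gg p (Q (3 * 3 ^ k) x) x x - gg p (Q (3 ^ k) x) x x) := by
        rw [sum_add_distrib, sum_const, nsmul_eq_mul, sum_comm]
        ring
    _ ≤ 4 * d * (Q R (0 : Site d)).card + ∑ k ∈ range m,
        C0 * 7 ^ d * (Q R (0 : Site d)).card * (1 / 3 : ℝ) ^ k := by
        have := sum_le_sum fun k (hk : k ∈ range m) => hstep k (mem_range.1 hk)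
        linarith
    _ = 4 * d * (Q R (0 : Site d)).card +
        C0 * 7 ^ d * (Q R (0 : Site d)).card * ∑ k ∈ range m, (1 / 3 : ℝ) ^ k := by
        rw [mul_sum]
    _ ≤ 4 * d * (Q R (0 : Site d)).card +
        C0 * 7 ^ d * (Q R (0 : Site d)).card * 2 := by
        have := mul_le_mul_of_nonneg_left hgeo
          (show 0 ≤ C0 * 7 ^ d * ((Q R (0 : Site d)).card : ℝ) by positivity)
        linarith
    _ = (4 * d + 2 * C0 * 7 ^ d) * (Q R (0 : Site d)).card := by ring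

end Pool.Agent.Helper59.WP
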